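import Pool.Agent.K1H4.AP.Equi

/-!
# Antipalindromic numbers in base 3

For every `k`, almost all antipalindromic numbers in base 3 with `2 m + 1` digits have at least `k`
distinct prime factors, as `m` tends to infinity. In particular the antipalindromic primes have
relative density zero among the antipalindromic numbers with an odd number of digits.
-/

open Finset Filter Topology

namespace Pool.Agent.Results.MP_f75418_nt.ManyPrimeFactors

/-- The antipalindromic numbers in base 3 with exactly `2 m + 1` digits; the digit at the place `j`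
of `n` is `n / 3 ^ j % 3`. -/
def antipalindromes (m : ℕ) : Finset ℕ :=
  (range (3 ^ (2 * m + 1))).filter fun n =>
    3 ^ (2 * m) ≤ n ∧ ∀ j ≤ 2 * m, n / 3 ^ j % 3 + n / 3 ^ (2 * m - j) % 3 = 2

theorem card_ge (m : ℕ) : 2 * 3 ^ m ≤ (antipalindromes (m + 1)).card := by
  have h1 : ((Pool.Agent.K1H4.AP.S m ×ˢ range 2).image
      fun p : ℕ × ℕ => 3 * p.1 + p.2 + (2 - p.2) * 9 ^ (m + 1)) ⊆ antipalindromes (m + 1) := by
    intro n hn
    obtain ⟨⟨N, a⟩, hp, rfl⟩ := mem_image.1 hn
    rw [mem_product, mem_range] at hp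
    have h2 : 3 * N + a + (2 - a) * 9 ^ (m + 1) ∈ Pool.Agent.K1H4.AP.S (m + 1) := by
      rw [Pool.Agent.K1H4.AP.S, mem_image]
      exact ⟨(N, a), mem_product.2 ⟨hp.1, mem_range.2 (lt_trans hp.2 (by norm_num))⟩, rfl⟩
    refine mem_filter.2 ⟨mem_range.2 (Pool.Agent.K1H4.AP.lt_of_mem h2), ?_,
      Pool.Agent.K1H4.AP.anti_of_mem h2⟩
    have ha : a < 2 := hp.2
    have h9 : 3 ^ (2 * (m + 1)) = 9 ^ (m + 1) := by
      rw [show (9 : ℕ) = 3 ^ 2 by norm_num, ← pow_mul]
    show 3 ^ (2 * (m + 1)) ≤ 3 * N + a + (2 - a) * 9 ^ (m + 1)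
    rw [h9]
    generalize 9 ^ (m + 1) = X
    interval_cases a <;> omega
  have h2 := card_le_card h1
  rw [card_image_of_injOn, card_product, card_range, Pool.Agent.K1H4.AP.card_S] at h2
  · linarith
  · refine (Pool.Agent.K1H4.AP.inj m).mono ?_
    intro p hp
    rw [mem_coe, mem_product, mem_range] at hp
    rw [mem_coe, mem_product, mem_range]
    exact ⟨hp.1, lt_trans hp.2 (by norm_num)⟩

theorem result (k : ℕ) :
    Tendsto (fun m : ℕ => (((antipalindromes m).filter fun n => k ≤ n.primeFactors.card).card : ℝ) /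
      (antipalindromes m).card) atTop (𝓝 1) := by
  classical
  rw [Metric.tendsto_atTop]
  intro ε hε
  obtain ⟨M, hM⟩ := eventually_atTop.1
    (Pool.Agent.K1H4.AP.many k ∅ (ε / 3) (by positivity))
  refine ⟨M + 1, fun m hm => ?_⟩
  obtain ⟨m, rfl⟩ := Nat.exists_eq_add_of_le' (by omega : 1 ≤ m)
  have h1 := hM (m + 1) (by omega)
  set A := antipalindromes (m + 1) with hA
  have hAS : A ⊆ Pool.Agent.K1H4.AP.S (m + 1) := by
    intro n hn
    rw [hA, antipalindromes, mem_filter, mem_range] at hn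
    exact Pool.Agent.K1H4.AP.mem_S hn.1 hn.2.2
  have hcard : (2 * 3 ^ m : ℝ) ≤ A.card := by exact_mod_cast card_ge m
  have hpos : (0 : ℝ) < A.card := lt_of_lt_of_le (by positivity) hcard
  have hsplit := card_filter_add_card_filter_not (s := A) (fun n => k ≤ n.primeFactors.card)
  have hsplit' : ((A.filter fun n => k ≤ n.primeFactors.card).card : ℝ) +
      ((A.filter fun n => ¬ k ≤ n.primeFactors.card).card : ℝ) = A.card := by
    exact_mod_cast hsplit
  have hbad : ((A.filter fun n => ¬ k ≤ n.primeFactors.card).card : ℝ) ≤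
      ε / 3 * 3 ^ (m + 1) := by
    refine le_trans ?_ h1
    have : (A.filter fun n => ¬ k ≤ n.primeFactors.card) ⊆
        (Pool.Agent.K1H4.AP.S (m + 1)).filter fun N => (N.primeFactors \ ∅).card < k := by
      intro n hn
      rw [mem_filter] at hn ⊢
      refine ⟨hAS hn.1, ?_⟩
      rw [sdiff_empty]
      exact not_le.1 hn.2
    exact_mod_cast card_le_card this
  have h3 : ((A.filter fun n => k ≤ n.primeFactors.card).card : ℝ) / A.card - 1 =
      -(((A.filter fun n => ¬ k ≤ n.primeFactors.card).card : ℝ) / A.card) := by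
    rw [← hsplit']
    have : ((A.filter fun n => k ≤ n.primeFactors.card).card : ℝ) +
      ((A.filter fun n => ¬ k ≤ n.primeFactors.card).card : ℝ) ≠ 0 := by
      rw [hsplit']
      exact hpos.ne'
    field_simp
    ring
  rw [Real.dist_eq, h3, abs_neg, abs_of_nonneg (by positivity), div_lt_iff₀ hpos]
  calc ((A.filter fun n => ¬ k ≤ n.primeFactors.card).card : ℝ) ≤ ε / 3 * 3 ^ (m + 1) := hbad
    _ = ε * 3 ^ m := by ring
    _ < ε * (2 * 3 ^ m) := by
        have : (0 : ℝ) < 3 ^ m := by positivity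
        nlinarith
    _ ≤ ε * A.card := mul_le_mul_of_nonneg_left hcard hε.le

end Pool.Agent.Results.MP_f75418_nt.ManyPrimeFactors
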